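import Pool.Agent.Helper43.TD.Enum

/-!
# Spanning trees by functions, exchange, the tree of the top-down step

`Tree ends T`: every function constant along `T` is constant, and for every `e ∈ T` there is a
function (the side of `e`) constant along `T - e` and not along `e`. The tree of the top-down step
consists of the windows `E₁ a, E₂ a` (2-paths `X a, Y a, Z a`) and of edges of the base class `H`.
-/

set_option autoImplicit false
set_option linter.unusedSectionVars false

namespace Pool.Agent.Helper39.TD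

open Finset Pool.Agent.Helper74.BL Pool.Agent.Helper43.TD

section Abstract

variable {V E : Type*} [DecidableEq E]

/-- spanning tree -/
structure Tree (ends : E → Sym2 V) (T : Finset E) : Prop where
  conn : Cn ends T
  side : ∀ e ∈ T, ∃ S : V → ZMod 2, Cst ends (T.erase e) S ∧ bd S (ends e) ≠ 0

variable {ends : E → Sym2 V} {T H : Finset E}

theorem z2_ne_zero {a : ZMod 2} : a ≠ 0 → a = 1 := by
  revert a
  decide

theorem bd_sum {ι : Type*} (s : Finset ι) (S : ι → V → ZMod 2) (z : Sym2 V) :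
    bd (fun x => ∑ i ∈ s, S i x) z = ∑ i ∈ s, bd (S i) z := by
  induction z using Sym2.ind with
  | _ x y =>
    simp only [bd_mk]
    rw [sum_add_distrib]

/-- an edge of the tree at `v` on the cycle closed by `a = uv`, and the exchange -/
theorem Tree.exchange (hT : Tree ends T) {a : E} (ha : a ∉ T) {u v : V} (huv : u ≠ v)
    (hav : ends a = s(u, v)) : ∃ b ∈ T, v ∈ ends b ∧ Tree ends (insert a (T.erase b)) := by
  classical
  choose! S hS1 hS2 using hT.side
  have key : ∃ b ∈ T, v ∈ ends b ∧ bd (S b) (ends a) ≠ 0 := by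
    by_contra hcon
    push Not at hcon
    set A : Finset E := T.filter fun e => v ∈ ends e with hA
    set C : V → ZMod 2 := fun x => (if x = v then 1 else 0) + ∑ e ∈ A, (S e x + S e v) with hC
    have hCst : Cst ends T C := by
      intro e he
      have h1 : bd C (ends e) = bd (fun x => if x = v then (1 : ZMod 2) else 0) (ends e) +
          ∑ e' ∈ A, bd (fun x => S e' x + S e' v) (ends e) := by
        rw [← bd_sum, ← bd_add]
        rfl
      have h2 : ∀ e' : E, bd (fun x => S e' x + S e' v) (ends e) = bd (S e') (ends e) := by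
        intro e'
        generalize ends e = z
        induction z using Sym2.ind with
        | _ x y =>
          rw [bd_mk, bd_mk]
          have : ∀ p q r : ZMod 2, p + r + (q + r) = p + q := by decide
          exact this _ _ _
      rw [h1, sum_congr rfl fun e' _ => h2 e']
      by_cases hv : v ∈ ends e
      · have heA : e ∈ A := by
          rw [hA, mem_filter]
          exact ⟨he, hv⟩
        rw [sum_eq_single_of_mem e heA (by
          intro e' he' hne
          exact hS1 e' (mem_filter.1 he').1 e (mem_erase.2 ⟨hne.symm, he⟩))]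
        have h3 := z2_ne_zero (hS2 e he)
        rw [h3]
        obtain ⟨w, hw⟩ := hv
        have hwv : w ≠ v := by
          rintro rfl
          rw [hw, bd_mk, z2_add_self] at h3
          exact absurd h3 (by decide)
        rw [hw, bd_mk, if_pos rfl, if_neg hwv]
        decide
      · rw [sum_eq_zero (by
          intro e' he'
          refine hS1 e' (mem_filter.1 he').1 e (mem_erase.2 ⟨?_, he⟩)
          rintro rfl
          exact hv (mem_filter.1 he').2), add_zero]
        revert hv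
        generalize ends e = z
        induction z using Sym2.ind with
        | _ x y =>
          intro hv
          rw [Sym2.mem_iff, not_or] at hv
          rw [bd_mk, if_neg (fun h => hv.1 h.symm), if_neg (fun h => hv.2 h.symm)]
          decide
    have h1 := hT.conn C hCst u v
    simp only [hC, if_neg huv, if_true] at h1
    have h2 : ∑ e ∈ A, (S e u + S e v) = 0 := by
      refine sum_eq_zero fun e he => ?_
      have h3 := hcon e (mem_filter.1 he).1 (mem_filter.1 he).2
      rw [hav, bd_mk] at h3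
      exact h3
    have h3 : ∑ e ∈ A, (S e v + S e v) = 0 := sum_eq_zero fun e _ => z2_add_self _
    rw [h2, h3] at h1
    exact absurd h1 (by decide)
  obtain ⟨b, hb, hvb, hba⟩ := key
  refine ⟨b, hb, hvb, ?_, ?_⟩
  · intro C hC
    by_cases h1 : bd C (ends b) = 0
    · refine hT.conn C fun e he => ?_
      by_cases h2 : e = b
      · rw [h2, h1]
      · exact hC e (mem_insert_of_mem (mem_erase.2 ⟨h2, he⟩))
    · exfalso
      have h2 : Cst ends T (C + S b) := by
        intro e he
        rw [bd_add]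
        by_cases h3 : e = b
        · rw [h3, z2_ne_zero h1, z2_ne_zero (hS2 b hb)]
          decide
        · rw [hC e (mem_insert_of_mem (mem_erase.2 ⟨h3, he⟩)),
            hS1 b hb e (mem_erase.2 ⟨h3, he⟩), add_zero]
      have h3 := hT.conn _ h2 u v
      have h4 : bd (C + S b) (ends a) = 0 := by
        rw [hav, bd_mk_eq_zero]
        exact h3
      rw [bd_add, hC a (mem_insert_self _ _), zero_add] at h4
      exact hba h4
  · intro e he
    rw [mem_insert] at he
    rcases he with rfl | he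
    · refine ⟨S b, fun x hx => ?_, hba⟩
      rw [mem_erase, mem_insert] at hx
      rcases hx.2 with h | h
      · exact absurd h hx.1
      · exact hS1 b hb x h
    · have heT := (mem_erase.1 he).2
      by_cases h1 : bd (S e) (ends a) = 0
      · refine ⟨S e, fun x hx => ?_, hS2 e heT⟩
        rw [mem_erase, mem_insert] at hx
        rcases hx.2 with h | h
        · rw [h, h1]
        · exact hS1 e heT x (mem_erase.2 ⟨hx.1, (mem_erase.1 h).2⟩)
      · refine ⟨S e + S b, fun x hx => ?_, ?_⟩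
        · rw [bd_add]
          rw [mem_erase, mem_insert] at hx
          rcases hx.2 with h | h
          · rw [h, z2_ne_zero h1, z2_ne_zero hba]
            decide
          · rw [hS1 e heT x (mem_erase.2 ⟨hx.1, (mem_erase.1 h).2⟩), hS1 b hb x h, add_zero]
        · rw [bd_add, hS1 b hb e he, add_zero]
          exact hS2 e heT

/-- a cycle without one edge is a spanning tree -/
theorem tree_of_enum {M : ℕ} [NeZero M] {x : ZMod M ≃ V} {en : ZMod M → E}
    (hE : Enum ends H M x en) (hev : Ev ends H) (hc : Cn ends H) {c : E} (hcH : c ∈ H) :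
    Tree ends (H.erase c) := by
  classical
  refine ⟨fun C hC => ?_, fun e he => ?_⟩
  · refine hc C (hev.one hcH ?_)
    intro y hy
    rw [mem_sdiff, mem_singleton] at hy
    exact hC y (mem_erase.2 ⟨hy.2, hy.1⟩)
  · obtain ⟨hec, heH⟩ := mem_erase.1 he
    obtain ⟨i₀, hi₀⟩ := (hE.mem c).1 hcH
    obtain ⟨i₁, hi₁⟩ := (hE.mem e).1 heH
    have hne : i₁ ≠ i₀ := by
      rintro rfl
      exact hec (by rw [← hi₀, ← hi₁])
    set k : ZMod M → ℕ := fun i => (i - (i₀ + 1)).val with hk
    have hk1 : ∀ i, i ≠ i₀ → k (i + 1) = k i + 1 := by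
      intro i hi
      have h1 : i + 1 - (i₀ + 1) = (i - (i₀ + 1)) + 1 := by ring
      simp only [hk]
      rw [h1]
      have h2 : (i - (i₀ + 1)).val < M := ZMod.val_lt _
      rcases Nat.lt_or_ge ((i - (i₀ + 1)).val + 1) M with h3 | h3
      · have h4 : (i - (i₀ + 1)) + 1 = (((i - (i₀ + 1)).val + 1 : ℕ) : ZMod M) := by
          rw [Nat.cast_add, ZMod.natCast_zmod_val, Nat.cast_one]
        rw [h4, ZMod.val_cast_of_lt h3]
      · exfalso
        apply hi
        have h4 : (i - (i₀ + 1)).val + 1 = M := by omega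
        have h5 : ((i - (i₀ + 1)) + 1 : ZMod M) = 0 := by
          have h6 := congrArg (Nat.cast : ℕ → ZMod M) h4
          rw [Nat.cast_add, ZMod.natCast_zmod_val, Nat.cast_one, ZMod.natCast_self] at h6
          exact h6
        have h7 : i - i₀ = 0 := by
          rw [← h5]
          ring
        exact sub_eq_zero.1 h7
    have hkinj : ∀ i j, k i = k j → i = j := by
      intro i j hij
      have := ZMod.val_injective M hij
      exact sub_left_injective this
    refine ⟨fun v => if k (x.symm v) ≤ k i₁ then 1 else 0, ?_, ?_⟩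
    · intro a ha
      obtain ⟨hae, haT⟩ := mem_erase.1 ha
      obtain ⟨hac, haH⟩ := mem_erase.1 haT
      obtain ⟨i, hi⟩ := (hE.mem a).1 haH
      have hi0 : i ≠ i₀ := by
        rintro rfl
        exact hac (by rw [← hi, hi₀])
      have hi1 : i ≠ i₁ := by
        rintro rfl
        exact hae (by rw [← hi, hi₁])
      have hki : k i ≠ k i₁ := fun h => hi1 (hkinj _ _ h)
      rw [← hi, hE.ends, bd_mk_eq_zero, Equiv.symm_apply_apply, Equiv.symm_apply_apply, hk1 i hi0]
      by_cases h : k i ≤ k i₁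
      · rw [if_pos h, if_pos (by omega)]
      · rw [if_neg h, if_neg (by omega)]
    · rw [← hi₁, hE.ends, bd_mk, Equiv.symm_apply_apply, Equiv.symm_apply_apply, hk1 i₁ hne,
        if_pos le_rfl, if_neg (by omega)]
      decide

/-- the windows: disjoint 2-paths `X a, Y a, Z a` with edges outside the base class `H` -/
structure Wins {ι : Type*} (ends : E → Sym2 V) (H : Finset E) (A : Finset ι) (X Y Z : ι → V)
    (E₁ E₂ : ι → E) : Prop where
  nm₁ : ∀ a ∈ A, E₁ a ∉ H
  nm₂ : ∀ a ∈ A, E₂ a ∉ H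
  ends₁ : ∀ a ∈ A, ends (E₁ a) = s(X a, Y a)
  ends₂ : ∀ a ∈ A, ends (E₂ a) = s(Y a, Z a)
  xy : ∀ a ∈ A, X a ≠ Y a
  yz : ∀ a ∈ A, Y a ≠ Z a
  xz : ∀ a ∈ A, X a ≠ Z a
  disj : ∀ a ∈ A, ∀ a' ∈ A, a ≠ a' → ∀ v, (v = X a ∨ v = Y a ∨ v = Z a) →
    ¬ (v = X a' ∨ v = Y a' ∨ v = Z a')

theorem Wins.mono {ι : Type*} {A A' : Finset ι} {X Y Z : ι → V} {E₁ E₂ : ι → E}
    (h : Wins ends H A X Y Z E₁ E₂) (hA : A' ⊆ A) : Wins ends H A' X Y Z E₁ E₂ :=
  ⟨fun a ha => h.nm₁ a (hA ha), fun a ha => h.nm₂ a (hA ha), fun a ha => h.ends₁ a (hA ha),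
    fun a ha => h.ends₂ a (hA ha), fun a ha => h.xy a (hA ha), fun a ha => h.yz a (hA ha),
    fun a ha => h.xz a (hA ha), fun a ha a' ha' => h.disj a (hA ha) a' (hA ha')⟩

/-- the tree of the top-down step -/
structure TDTree {ι : Type*} (ends : E → Sym2 V) (H : Finset E) (A : Finset ι) (Y Z : ι → V)
    (E₁ E₂ : ι → E) (cc : E) (T : Finset E) : Prop where
  tree : Tree ends T
  mem₁ : ∀ a ∈ A, E₁ a ∈ T
  mem₂ : ∀ a ∈ A, E₂ a ∈ T
  sub : ∀ e ∈ T, e ∈ H ∨ ∃ a ∈ A, e = E₁ a ∨ e = E₂ a
  nmc : cc ∉ T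
  big : ∀ e ∈ H, e ≠ cc → (∀ a ∈ A, Y a ∉ ends e ∧ Z a ∉ ends e) → e ∈ T
  oneY : ∀ a ∈ A, ∀ e ∈ T, e ∈ H → Y a ∈ ends e → ∀ e' ∈ T, e' ∈ H → Y a ∈ ends e' → e = e'
  oneZ : ∀ a ∈ A, ∀ e ∈ T, e ∈ H → Z a ∈ ends e → ∀ e' ∈ T, e' ∈ H → Z a ∈ ends e' → e = e'
  zeroZ : ∀ a ∈ A, Z a ∈ ends cc → ∀ e ∈ T, e ∈ H → Z a ∉ ends e

variable [DecidableEq V]

theorem exists_tdTree {ι : Type*} [DecidableEq ι] {M : ℕ} [NeZero M] {x : ZMod M ≃ V}
    {en : ZMod M → E} (hE : Enum ends H M x en) (hev : Ev ends H) (hc : Cn ends H)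
    (h2 : Two ends H) {cc : E} (hcc : cc ∈ H) {A : Finset ι} {X Y Z : ι → V} {E₁ E₂ : ι → E}
    (hW : Wins ends H A X Y Z E₁ E₂) :
    ∃ T, TDTree ends H A Y Z E₁ E₂ cc T := by
  induction A using Finset.induction_on with
  | empty =>
    refine ⟨H.erase cc, tree_of_enum hE hev hc hcc, by simp, by simp, ?_, by simp, ?_, by simp,
      by simp, by simp⟩
    · intro e he
      exact Or.inl (mem_erase.1 he).2
    · intro e he hne _
      exact mem_erase.2 ⟨hne, he⟩
  | insert a₀ A ha₀ ih =>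
    obtain ⟨T, hT⟩ := ih (hW.mono (subset_insert _ _))
    have hm : a₀ ∈ insert a₀ A := mem_insert_self _ _
    have hne : ∀ a ∈ A, a ≠ a₀ := by
      rintro a ha rfl
      exact ha₀ ha
    -- edges of `T` at the vertices of the new window lie in `H`
    have hTH : ∀ e ∈ T, ∀ v, (v = X a₀ ∨ v = Y a₀ ∨ v = Z a₀) → v ∈ ends e → e ∈ H := by
      intro e he v hv hve
      rcases hT.sub e he with h | ⟨a, ha, h⟩
      · exact h
      · exfalso
        have ha' : a ∈ insert a₀ A := mem_insert_of_mem ha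
        refine hW.disj a₀ hm a ha' (hne a ha).symm v hv ?_
        rcases h with rfl | rfl
        · rw [hW.ends₁ a ha', Sym2.mem_iff] at hve
          tauto
        · rw [hW.ends₂ a ha', Sym2.mem_iff] at hve
          tauto
    have hnew₁ : E₁ a₀ ∉ T := by
      intro h
      exact hW.nm₁ a₀ hm (hTH _ h (X a₀) (Or.inl rfl)
        (by rw [hW.ends₁ a₀ hm]; exact Sym2.mem_mk_left _ _))
    obtain ⟨b₁, hb₁, hb₁Y, hT₁⟩ := hT.tree.exchange hnew₁ (hW.xy a₀ hm) (hW.ends₁ a₀ hm)
    have hb₁H : b₁ ∈ H := hTH _ hb₁ (Y a₀) (Or.inr (Or.inl rfl)) hb₁Y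
    set T₁ := insert (E₁ a₀) (T.erase b₁) with hT₁def
    have hE12 : E₂ a₀ ≠ E₁ a₀ := by
      intro h
      have h1 := hW.ends₂ a₀ hm
      rw [h, hW.ends₁ a₀ hm, Sym2.eq_iff] at h1
      rcases h1 with ⟨h1, -⟩ | ⟨h1, -⟩
      · exact hW.xy a₀ hm h1
      · exact hW.xz a₀ hm h1
    have hnew₂ : E₂ a₀ ∉ T₁ := by
      intro h
      rw [hT₁def, mem_insert] at h
      rcases h with h | h
      · exact hE12 h
      · exact hW.nm₂ a₀ hm (hTH _ (mem_erase.1 h).2 (Y a₀) (Or.inr (Or.inl rfl))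
          (by rw [hW.ends₂ a₀ hm]; exact Sym2.mem_mk_left _ _))
    obtain ⟨b₂, hb₂, hb₂Z, hT₂⟩ := hT₁.exchange hnew₂ (hW.yz a₀ hm) (hW.ends₂ a₀ hm)
    have hb₂' : b₂ ∈ T ∧ b₂ ≠ b₁ := by
      rw [hT₁def, mem_insert] at hb₂
      rcases hb₂ with h | h
      · exfalso
        rw [h, hW.ends₁ a₀ hm, Sym2.mem_iff] at hb₂Z
        rcases hb₂Z with h1 | h1
        · exact hW.xz a₀ hm h1.symm
        · exact hW.yz a₀ hm h1.symm
      · exact ⟨(mem_erase.1 h).2, (mem_erase.1 h).1⟩
    have hb₂H : b₂ ∈ H := hTH _ hb₂'.1 (Z a₀) (Or.inr (Or.inr rfl)) hb₂Z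
    set T₂ := insert (E₂ a₀) (T₁.erase b₂) with hT₂def
    have hmem : ∀ e, e ∈ T₂ ↔ e = E₂ a₀ ∨ (e ≠ b₂ ∧ (e = E₁ a₀ ∨ (e ≠ b₁ ∧ e ∈ T))) := by
      intro e
      rw [hT₂def, mem_insert, mem_erase, hT₁def, mem_insert, mem_erase]
    have hmemH : ∀ e, e ∈ T₂ → e ∈ H → e ∈ T ∧ e ≠ b₁ ∧ e ≠ b₂ := by
      intro e he heH
      rcases (hmem e).1 he with rfl | ⟨h1, rfl | ⟨h2, h3⟩⟩
      · exact absurd heH (hW.nm₂ a₀ hm)
      · exact absurd heH (hW.nm₁ a₀ hm)
      · exact ⟨h3, h2, h1⟩
    have hmem' : ∀ e ∈ T, e ≠ b₁ → e ≠ b₂ → e ∈ T₂ := by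
      intro e he h1 h2
      exact (hmem e).2 (Or.inr ⟨h2, Or.inr ⟨h1, he⟩⟩)
    refine ⟨T₂, hT₂, ?_, ?_, ?_, ?_, ?_, ?_, ?_, ?_⟩
    · intro a ha
      rcases mem_insert.1 ha with rfl | ha'
      · refine (hmem _).2 (Or.inr ⟨?_, Or.inl rfl⟩)
        rintro h
        exact hW.nm₁ a hm (h ▸ hb₂H)
      · refine hmem' _ (hT.mem₁ a ha') ?_ ?_
        · rintro h
          exact hW.nm₁ a ha (h ▸ hb₁H)
        · rintro h
          exact hW.nm₁ a ha (h ▸ hb₂H)
    · intro a ha
      rcases mem_insert.1 ha with rfl | ha'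
      · exact (hmem _).2 (Or.inl rfl)
      · refine hmem' _ (hT.mem₂ a ha') ?_ ?_
        · rintro h
          exact hW.nm₂ a ha (h ▸ hb₁H)
        · rintro h
          exact hW.nm₂ a ha (h ▸ hb₂H)
    · intro e he
      rcases (hmem e).1 he with rfl | ⟨h1, rfl | ⟨h2, h3⟩⟩
      · exact Or.inr ⟨a₀, hm, Or.inr rfl⟩
      · exact Or.inr ⟨a₀, hm, Or.inl rfl⟩
      · rcases hT.sub e h3 with h | ⟨a, ha, h⟩
        · exact Or.inl h
        · exact Or.inr ⟨a, mem_insert_of_mem ha, h⟩
    · intro h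
      exact hT.nmc (hmemH _ h hcc).1
    · intro e he hec hav
      refine hmem' _ (hT.big e he hec fun a ha => hav a (mem_insert_of_mem ha)) ?_ ?_
      · rintro rfl
        exact (hav a₀ hm).1 hb₁Y
      · rintro rfl
        exact (hav a₀ hm).2 hb₂Z
    · intro a ha e he heH hY e' he' heH' hY'
      have h1 := hmemH e he heH
      have h3 := hmemH e' he' heH'
      rcases mem_insert.1 ha with rfl | ha'
      · by_contra hne'
        rcases h2.two_edges heH heH' hne' hY hY' hb₁H hb₁Y with h | h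
        · exact h1.2.1 h.symm
        · exact h3.2.1 h.symm
      · exact hT.oneY a ha' e h1.1 heH hY e' h3.1 heH' hY'
    · intro a ha e he heH hZ e' he' heH' hZ'
      have h1 := hmemH e he heH
      have h3 := hmemH e' he' heH'
      rcases mem_insert.1 ha with rfl | ha'
      · by_contra hne'
        rcases h2.two_edges heH heH' hne' hZ hZ' hb₂H hb₂Z with h | h
        · exact h1.2.2 h.symm
        · exact h3.2.2 h.symm
      · exact hT.oneZ a ha' e h1.1 heH hZ e' h3.1 heH' hZ'
    · intro a ha hZc e he heH hZ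
      have h1 := hmemH e he heH
      rcases mem_insert.1 ha with rfl | ha'
      · rcases h2.two_edges hb₂H hcc (fun h => hT.nmc (h ▸ hb₂'.1)) hb₂Z hZc heH hZ with h | h
        · exact h1.2.2 h
        · exact hT.nmc (h ▸ h1.1)
      · exact hT.zeroZ a ha' hZc e h1.1 heH hZ

end Abstract

section Section

variable {K Q : Type*} [AddCommGroup K] [AddCommGroup Q] {J : Type*} [DecidableEq (Q × J)]

/-- the section along a spanning tree -/
theorem exists_section {φ : K →+ Q} (hφ : Function.Surjective φ) (f : J → K)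
    {T : Finset (Q × J)} (hT : Tree (ends fun j => φ (f j)) T) :
    ∃ σ : Q → K, (∀ q, φ (σ q) = q) ∧ ∀ e ∈ T, σ (e.1 + φ (f e.2)) = σ e.1 + f e.2 := by
  classical
  choose σ₀ hσ₀ using hφ
  choose! S hS1 hS2 using hT.side
  set v : Q × J → K := fun e => σ₀ e.1 + f e.2 - σ₀ (e.1 + φ (f e.2)) with hv
  have hvφ : ∀ e, φ (v e) = 0 := by
    intro e
    simp only [hv, map_sub, map_add, hσ₀, sub_self]
  refine ⟨fun q => σ₀ q + ∑ e ∈ T, if S e q = S e (e.1 + φ (f e.2)) then v e else 0, ?_, ?_⟩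
  · intro q
    simp only [map_add, hσ₀, map_sum]
    rw [sum_eq_zero, add_zero]
    intro e _
    split_ifs
    · exact hvφ e
    · exact map_zero φ
  · intro e he
    have h1 : ∀ e' ∈ T, e' ≠ e → S e' e.1 = S e' (e.1 + φ (f e.2)) := by
      intro e' he' hne
      have := hS1 e' he' e (mem_erase.2 ⟨hne.symm, he⟩)
      exact bd_mk_eq_zero.1 this
    have h2 : S e e.1 ≠ S e (e.1 + φ (f e.2)) := by
      have := hS2 e he
      rw [Helper74.BL.ends, Ne, bd_mk_eq_zero] at this
      exact this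
    have h3 : ∑ e' ∈ T, (if S e' (e.1 + φ (f e.2)) = S e' (e'.1 + φ (f e'.2)) then v e' else 0) =
        (∑ e' ∈ T, if S e' e.1 = S e' (e'.1 + φ (f e'.2)) then v e' else 0) + v e := by
      rw [← add_sum_erase _ _ he, ← add_sum_erase T (fun e' => if S e' e.1 =
        S e' (e'.1 + φ (f e'.2)) then v e' else 0) he, if_pos rfl, if_neg h2, zero_add,
        add_comm]
      congr 1
      refine sum_congr rfl fun e' he' => ?_
      rw [h1 e' (mem_erase.1 he').2 (mem_erase.1 he').1]
    simp only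
    rw [h3]
    simp only [hv]
    abel

end Section

end Pool.Agent.Helper39.TD
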